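import Pool.Agent.BSR.Final2_618

/-!
# The asymptotic value of the border subrank of a generic tensor
-/

set_option autoImplicit false

namespace Pool.Agent.Results.MP_79bff1_ag.GenericBorderSubrankLimit

open Filter Topology

/-- A tensor in `ℂ^n ⊗ ⋯ ⊗ ℂ^n` (`d` factors), given by its coordinates: `T i` is the coefficient of
`e_{i 1} ⊗ ⋯ ⊗ e_{i d}`. -/
abbrev Tensor (d n : ℕ) : Type := (Fin d → Fin n) → ℂ

/-- The tensor `(A_1 ⊗ ⋯ ⊗ A_d) T` for linear maps `A_s : ℂ^n → ℂ^q` (as matrices): the tensors to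
which `T` restricts. -/
noncomputable def restrict {d n q : ℕ} (A : Fin d → Matrix (Fin q) (Fin n) ℂ) (T : Tensor d n) :
    Tensor d q :=
  fun j => ∑ i : Fin d → Fin n, (∏ s, A s (j s) (i s)) * T i

/-- The unit tensor `u_d(q) = ∑_{l ≤ q} e_l ⊗ ⋯ ⊗ e_l`. -/
noncomputable def unitTensor (d q : ℕ) : Tensor d q :=
  fun j => ∑ l : Fin q, ∏ s, (if j s = l then (1 : ℂ) else 0)

/-- `T` degenerates to `S`: `S` lies in the closure of the set of all tensors to which `T`
restricts. -/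
def DegeneratesTo {d n q : ℕ} (T : Tensor d n) (S : Tensor d q) : Prop :=
  S ∈ closure (Set.range fun A : Fin d → Matrix (Fin q) (Fin n) ℂ => restrict A T)

/-- The border subrank of `T`: the largest `q` such that `T` degenerates to the unit tensor
`u_d(q)`. -/
noncomputable def borderSubrank {d n : ℕ} (T : Tensor d n) : ℕ :=
  sSup {q : ℕ | DegeneratesTo T (unitTensor d q)}

/-- `p` holds for a generic tensor: it holds on a nonempty Zariski-open set (the complement of the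
zero set of a nonzero polynomial in the coordinates). -/
def Generically {d n : ℕ} (p : Tensor d n → Prop) : Prop :=
  ∃ P : MvPolynomial (Fin d → Fin n) ℂ, P ≠ 0 ∧
    ∀ T : Tensor d n, MvPolynomial.eval T P ≠ 0 → p T

/-- The number of positions `j = (j_1, …, j_d)` of weight `∑_s a_s(j_s) ≤ 0` in the box
`I_1 × ⋯ × I_d`. -/
def load {d r : ℕ} (a : Fin d → Fin r → ℤ) (I : Fin d → Finset (Fin r)) : ℕ :=
  (Finset.univ.filter fun j : Fin d → Fin r => (∀ s, j s ∈ I s) ∧ ∑ s, a s (j s) ≤ 0).card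

/-- The least `m` such that for some integer weights `a_s(l)` (`1 ≤ s ≤ d`, `1 ≤ l ≤ r`) with
`∑_s a_s(l) = 0` for every `l`, every box `I` contains at most `m ∑_s |I_s|` positions of
weight `≤ 0`. -/
noncomputable def loadNumber (d r : ℕ) : ℕ :=
  sInf {m : ℕ | ∃ a : Fin d → Fin r → ℤ, (∀ l, ∑ s, a s l = 0) ∧
    ∀ I : Fin d → Finset (Fin r), load a I ≤ m * ∑ s, (I s).card}

/-- For all `d ≥ 3` there is a constant `c` with `d² - 1 ≤ c ≤ d²`, namely
`c = lim_r r^(d-1) / loadNumber d r = sup_r r^(d-1) / loadNumber d r`, such that the border subrank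
`q` of a generic tensor in `(ℂ^n)^{⊗ d}` satisfies `q^(d-1) = (c + o(1)) n` as `n → ∞`. For every
`n`, generically `loadNumber d q ≤ n + d q` and `n ≤ loadNumber d (q+1) + 2 (q+1)`, and
`(d² - 1) n ≤ (q + 2 d + 1)^(d-1) + 2 (d² - 1) (q+1)` and `q^(d-1) ≤ d² (n + q)`. -/
theorem result (d : ℕ) (hd : 3 ≤ d) :
    ∃ c : ℝ, ((d : ℝ) ^ 2 - 1 ≤ c ∧ c ≤ (d : ℝ) ^ 2) ∧
      Tendsto (fun r : ℕ => (r : ℝ) ^ (d - 1) / loadNumber d r) atTop (𝓝 c) ∧
      (∀ r : ℕ, 0 < r → (r : ℝ) ^ (d - 1) / loadNumber d r ≤ c) ∧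
      (∀ ε : ℝ, 0 < ε → ∃ N : ℕ, ∀ n ≥ N, Generically fun T : Tensor d n =>
        (c - ε) * n ≤ (borderSubrank T : ℝ) ^ (d - 1) ∧
        (borderSubrank T : ℝ) ^ (d - 1) ≤ (c + ε) * n) ∧
      ∀ n : ℕ, Generically fun T : Tensor d n =>
        (loadNumber d (borderSubrank T) ≤ n + d * borderSubrank T ∧
          n ≤ loadNumber d (borderSubrank T + 1) + 2 * (borderSubrank T + 1)) ∧
        (d ^ 2 - 1) * n ≤ (borderSubrank T + 2 * d + 1) ^ (d - 1) +
          2 * (d ^ 2 - 1) * (borderSubrank T + 1) ∧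
        borderSubrank T ^ (d - 1) ≤ d ^ 2 * (n + borderSubrank T) :=
  BSR.final2 d hd

end Pool.Agent.Results.MP_79bff1_ag.GenericBorderSubrankLimit
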